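import Mathlib
import Pool.Agent.V11242.FS.Forced
import Pool.Agent.V11242.FS.Prop

/-!
# Consistency of an uncountable open Whyburn space with a Fréchet–Urysohn `Q_p(X, ℝ)`
-/

set_option autoImplicit false

namespace Pool.Agent.Results.MP_6bb66b_gt.UncountableOpenWhyburn

open Pool.Agent.V11242.FS Pool.Agent.V11242.QC

/-- (1) There is a ccc partial order `P`, and there is a well-ordered set `K` without a maximum all
of whose proper initial segments are countable, such that `P` forces the sentence `Phi K` (there is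
a free Suslin tree on `K × ℕ`).
(2) In ZFC, if `K` is such a well-ordered set and `Phi K` holds, then there is an uncountable open
Whyburn Hausdorff semiregular space `X` such that `Q_p(X, ℝ)` is Fréchet–Urysohn. The space is
zero-dimensional and first countable. -/
theorem result :
    (∃ (K P : Type) (_ : LinearOrder K) (_ : WellFoundedLT K) (_ : NoMaxOrder K) (_ : Preorder P),
      (∀ k : K, (Set.Iic k).Countable) ∧ Nonempty P ∧
      (∀ A : Set P, (∀ p ∈ A, ∀ q ∈ A, p ≠ q → ¬ ∃ r, r ≤ p ∧ r ≤ q) → A.Countable) ∧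
      ∀ p : P, p ∈ PhiN P K) ∧
    (∀ (K : Type) [LinearOrder K] [WellFoundedLT K] [NoMaxOrder K],
      (∀ k : K, (Set.Iic k).Countable) → Phi K →
      ∃ (X : Type) (_ : TopologicalSpace X), ¬ (Set.univ : Set X).Countable ∧ T2Space X ∧
        IsSemiregular X ∧ IsOpenWhyburn X ∧ IsFU (Qp X) ∧
        (∀ x : X, ∀ U : Set X, IsOpen U → x ∈ U → ∃ V : Set X, IsClopen V ∧ x ∈ V ∧ V ⊆ U) ∧
        (∀ x : X, ∃ V : ℕ → Set X, (∀ n, IsOpen (V n) ∧ x ∈ V n) ∧
          ∀ U : Set X, IsOpen U → x ∈ U → ∃ n, V n ⊆ U)) := by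
  refine ⟨exists_forcing, ?_⟩
  intro K _ _ _ hI hPhi
  obtain ⟨X, tX, h1, -, h2, h3, h4, h5, h6⟩ := main_space hI hPhi
  exact ⟨X, tX, h1.2.2.2, h1.1, h2, h3, h4, h5, h6⟩

end Pool.Agent.Results.MP_6bb66b_gt.UncountableOpenWhyburn
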